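import Pool.Agent.H30.EE.TargetsP

/-!
# Constant injective maps preserve the degree (row CST of ee_modules)
-/

set_option autoImplicit false

open MvPolynomial SC Pool.Agent.H27.LV Pool.Agent.H17.VG Pool.Agent.H30.EE

namespace Pool.Agent.H3.EE

/-- the minors of the images under a constant matrix -/
theorem cst_mnr {K : Type} [Field K] {m : ℕ} {ι ι' : Type} [Fintype ι] [DecidableEq ι]
    (A : Matrix ι' ι K) (u : Fin m → ι → K) (J' : Fin m → ι') :
    mnr (fun a => A.mulVec (u a)) J' =
      ∑ J : Fin m → ι, (∏ b, A (J' b) (J b)) * mnr u J := by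
  unfold mnr
  simp only [Matrix.det_apply', Matrix.of_apply, Matrix.mulVec, dotProduct]
  have h1 : ∀ σ : Equiv.Perm (Fin m), (∏ i, ∑ j, A (J' i) j * u (σ i) j) =
      ∑ J : Fin m → ι, ∏ i, (A (J' i) (J i) * u (σ i) (J i)) := by
    intro σ
    rw [Finset.prod_univ_sum, Fintype.piFinset_univ]
  simp only [h1, Finset.mul_sum]
  rw [Finset.sum_comm]
  refine Finset.sum_congr rfl fun J _ => Finset.sum_congr rfl fun σ _ => ?_
  rw [Finset.prod_mul_distrib]
  ring

/-- constant maps do not increase the height of the minors -/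
theorem cst_le (hHG : T_HG) (k K : Type) [Field k] [IsAlgClosed k] [CharZero k] [Field K]
    [Algebra k K] [Algebra.EssFiniteType k K] (htr : Algebra.trdeg k K = 1) {m : ℕ}
    {ι ι' : Type} [Fintype ι] [Fintype ι'] (A : Matrix ι' ι k) (u : Fin m → ι → K)
    (h : mnr (fun a => (A.map (algebraMap k K)).mulVec (u a)) ≠ 0) :
    hgt k (mnr fun a => (A.map (algebraMap k K)).mulVec (u a)) ≤ hgt k (mnr u) := by
  classical
  have e : (mnr fun a => (A.map (algebraMap k K)).mulVec (u a)) =
      Matrix.mulVec ((Matrix.of fun (J' : Fin m → ι') (J : Fin m → ι) =>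
        ∏ b, A (J' b) (J b)).map (algebraMap k K)) (mnr u) := by
    funext J'
    rw [cst_mnr]
    simp only [Matrix.mulVec, dotProduct, Matrix.map_apply, Matrix.of_apply, map_prod]
  rw [e] at h ⊢
  exact (hHG k K htr (Fin m → ι) (mnr u)).2.2.2.2.2.2.2 _ _ h

theorem pf_CST (hHG : T_HG) (hCBM : T_CBM) (hDGB : T_DGB) : T_CST := by
  intro k K _ _ _ _ _ _ htr ι ι' _ _ A hA U
  classical
  have : Fintype ι' := Fintype.ofFinite ι'
  -- a left inverse
  obtain ⟨g, hg⟩ := LinearMap.exists_leftInverse_of_injective (Matrix.mulVecLin A)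
    (LinearMap.ker_eq_bot'.2 fun c hc => hA c hc)
  obtain ⟨B, hB⟩ : ∃ B : Matrix ι ι' k, B * A = 1 := by
    refine ⟨LinearMap.toMatrix' g, ?_⟩
    have h1 : LinearMap.toMatrix' (Matrix.mulVecLin A) = A := LinearMap.toMatrix'_toLin' A
    rw [← LinearMap.toMatrix'_id, ← hg, LinearMap.toMatrix'_comp, h1]
  have hBK : (B.map (algebraMap k K)) * (A.map (algebraMap k K)) = 1 := by
    rw [← Matrix.map_mul, hB]
    exact Matrix.map_one _ (map_zero _) (map_one _)
  have hinv : ∀ x : ι → K, (B.map (algebraMap k K)).mulVec ((A.map (algebraMap k K)).mulVec x) =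
      x := by
    intro x
    rw [Matrix.mulVec_mulVec, hBK, Matrix.one_mulVec]
  -- a basis
  set m := Module.finrank K U with hm
  set u : Fin m → ι → K := fun a => ((Module.finBasis K U a : U) : ι → K) with hu
  have hli : LinearIndependent K u :=
    (Module.finBasis K U).linearIndependent.map' U.subtype (Submodule.ker_subtype U)
  have hsp : Submodule.span K (Set.range u) = U := by
    have h1 : Set.range u = U.subtype '' Set.range (Module.finBasis K U) := by
      rw [← Set.range_comp]
      rfl
    rw [h1, Submodule.span_image, (Module.finBasis K U).span_eq, Submodule.map_top,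
      Submodule.range_subtype]
  have hli' : LinearIndependent K (fun a => (A.map (algebraMap k K)).mulVec (u a)) := by
    refine hli.map' (Matrix.mulVecLin (A.map (algebraMap k K))) ?_
    rw [LinearMap.ker_eq_bot']
    intro x hx
    rw [← hinv x]
    have h2 : (A.map (algebraMap k K)).mulVec x = 0 := hx
    rw [h2, Matrix.mulVec_zero]
  have hsp' : Submodule.span K (Set.range fun a => (A.map (algebraMap k K)).mulVec (u a)) =
      U.map (Matrix.mulVecLin (A.map (algebraMap k K))) := by
    have h1 : (Set.range fun a => (A.map (algebraMap k K)).mulVec (u a)) =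
        (Matrix.mulVecLin (A.map (algebraMap k K))) '' Set.range u := by
      rw [← Set.range_comp]
      rfl
    rw [h1, Submodule.span_image, hsp]
  rw [← hsp', hDGB k K htr ι' m _ hli']
  conv_rhs => rw [← hsp, hDGB k K htr ι m u hli]
  rw [neg_inj]
  have n1 := ((hCBM K m ι' _).1).1 hli'
  have n2 := ((hCBM K m ι u).1).1 hli
  refine le_antisymm (cst_le hHG k K htr A u n1) ?_
  have h3 := cst_le hHG k K htr B (fun a => (A.map (algebraMap k K)).mulVec (u a))
  simp only [hinv] at h3
  exact h3 n2

end Pool.Agent.H3.EE
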