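import Pool.Agent.H30.EE.TargetsP
import Pool.Agent.H27.LV.Curve

/-!
# Elementary properties of the degree (row DG0 of ee_modules)
-/

set_option autoImplicit false

open MvPolynomial SC Pool.Agent.H27.LV Pool.Agent.H17.VG Pool.Agent.H30.EE

namespace Pool.Agent.H3.EE

theorem dg0_prod {k K : Type} [Field k] [Field K] [Algebra k K] (v : DV k K) {κ : Type}
    (t : κ → ℤ) (f : κ → K) (h : ∀ i, ge v (t i) (f i)) (s : Finset κ) :
    ge v (∑ i ∈ s, t i) (∏ i ∈ s, f i) := by
  classical
  induction s using Finset.induction_on with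
  | empty => simpa using ge_one v
  | insert a s ha ih =>
    rw [Finset.sum_insert ha, Finset.prod_insert ha]
    exact (h a).mul ih

theorem dg0_mnr {k K : Type} [Field k] [Field K] [Algebra k K] (v : DV k K) {m : ℕ} {ι : Type}
    (u : Fin m → ι → K) (t : Fin m → ℤ) (h : ∀ a i, ge v (t a) (u a i)) (J : Fin m → ι) :
    ge v (∑ a, t a) (mnr u J) := by
  unfold mnr
  rw [Matrix.det_apply]
  refine ge_sum v _ _ _ fun σ _ => ?_
  have h1 : ge v (∑ a, t a) (∏ i, u (σ i) (J i)) := by
    rw [← Equiv.sum_comp σ t]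
    exact dg0_prod v (fun i => t (σ i)) (fun i => u (σ i) (J i)) (fun i => h (σ i) (J i)) _
  simp only [Matrix.of_apply]
  rcases Int.units_eq_one_or (Equiv.Perm.sign σ) with h2 | h2
  · rw [h2, one_smul]
    exact h1
  · rw [h2, Units.neg_smul, one_smul]
    exact h1.neg

theorem pf_DG0 (hMO : T_MO) (hHG : T_HG) (hCBM : T_CBM) (hDGB : T_DGB) : T_DG0 := by
  intro k K _ _ _ _ _ _ htr ι _
  classical
  have : Fintype ι := Fintype.ofFinite ι
  refine ⟨?_, ?_, ?_, ?_, ?_⟩
  · -- bot
    have hli : LinearIndependent K (fun a : Fin 0 => (Fin.elim0 a : ι → K)) :=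
      linearIndependent_empty_type
    have h1 := hDGB k K htr ι 0 _ hli
    rw [Set.range_eq_empty, Submodule.span_empty] at h1
    rw [h1, neg_eq_zero]
    have h2 : mnr (fun a : Fin 0 => (Fin.elim0 a : ι → K)) =
        fun _ => algebraMap k K 1 := by
      funext J
      unfold mnr
      rw [Matrix.det_isEmpty, map_one]
    rw [h2]
    exact (hHG k K htr (Fin 0 → ι) (0 : (Fin 0 → ι) → K)).2.2.2.1 (fun _ => 1)
  · -- top
    have hli : LinearIndependent K ((Pi.basisFun K ι).reindex (Fintype.equivFin ι)) :=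
      ((Pi.basisFun K ι).reindex (Fintype.equivFin ι)).linearIndependent
    have h1 := hDGB k K htr ι (Fintype.card ι) _ hli
    rw [((Pi.basisFun K ι).reindex (Fintype.equivFin ι)).span_eq] at h1
    rw [h1, neg_eq_zero]
    have h2 : mnr ((Pi.basisFun K ι).reindex (Fintype.equivFin ι)) =
        fun J => algebraMap k K ((Matrix.of fun a b : Fin (Fintype.card ι) =>
          (Pi.single ((Fintype.equivFin ι).symm a) (1 : k) : ι → k) (J b)).det) := by
      funext J
      unfold mnr
      rw [RingHom.map_det]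
      congr 1
      ext a b
      simp only [Module.Basis.coe_reindex, Function.comp_apply, Pi.basisFun_apply,
        Matrix.of_apply, RingHom.mapMatrix_apply, Matrix.map_apply, Pi.single_apply]
      split_ifs
      · rw [map_one]
      · rw [map_zero]
    rw [h2]
    exact (hHG k K htr (Fin (Fintype.card ι) → ι) (0 : (Fin (Fintype.card ι) → ι) → K)).2.2.2.1 _
  · -- nonpositive
    intro U
    unfold dg
    rw [neg_nonpos]
    exact (hHG k K htr _ _).2.1
  · -- the sum of the heights
    intro m u hu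
    rw [hDGB k K htr ι m u hu, neg_le_neg_iff]
    have hne : mnr u ≠ 0 := ((hCBM K m ι u).1).1 hu
    have hua : ∀ a, u a ≠ 0 := fun a => hu.ne_zero a
    unfold hgt
    rw [Finset.sum_neg_distrib, neg_le_neg_iff]
    have hf1 : ∀ a : Fin m, {v : DV k K | mo v (u a) ≠ 0}.Finite := fun a =>
      (hHG k K htr ι (u a)).1
    have hf2 : {v : DV k K | mo v (mnr u) ≠ 0}.Finite := (hHG k K htr _ (mnr u)).1
    rw [← finsum_sum_comm _ _ (fun a _ => hf1 a)]
    refine finsum_le_finsum' ?_ ?_ ?_
    · refine (Set.finite_iUnion hf1).subset ?_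
      intro v hv
      rw [Function.mem_support] at hv
      obtain ⟨a, _, ha⟩ := Finset.exists_ne_zero_of_sum_ne_zero hv
      exact Set.mem_iUnion.2 ⟨a, ha⟩
    · exact hf2
    · intro v
      refine ((hMO k K v (Fin m → ι) (mnr u)).2 hne).2.2.1 _ fun J => ?_
      exact dg0_mnr v u _ (fun a i => ((hMO k K v ι (u a)).2 (hua a)).1 i) J
  · -- a line
    intro u hu
    have hli : LinearIndependent K (fun _ : Fin 1 => u) :=
      linearIndependent_unique_iff.2 hu
    have h1 := hDGB k K htr ι 1 _ hli
    rw [Set.range_const] at h1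
    rw [h1, neg_inj]
    unfold hgt
    rw [neg_inj]
    refine finsum_congr fun v => ?_
    unfold mo
    congr 1
    ext a
    simp only [Set.mem_ofPred_eq]
    have h2 : ∀ J : Fin 1 → ι, mnr (fun _ : Fin 1 => u) J = u (J 0) := by
      intro J
      unfold mnr
      rw [Matrix.det_fin_one]
      rfl
    constructor
    · rintro ⟨J, h3, h4⟩
      rw [h2] at h3 h4
      exact ⟨J 0, h3, h4⟩
    · rintro ⟨i, h3, h4⟩
      refine ⟨fun _ => i, ?_, ?_⟩ <;> rw [h2]
      · exact h3
      · exact h4

end Pool.Agent.H3.EE
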