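import Pool.Agent.H3.EE.L41a

/-!
# Lemma 4.1 (row L41 of ee_modules)
-/

set_option autoImplicit false

open MvPolynomial Pool.Agent.H27.LV Pool.Agent.H17.VG Pool.Agent.H30.EE
open SC hiding el

namespace Pool.Agent.H3.EE

theorem pf_L41 (hLDJ : Pool.Agent.H17.BO.T_LDJ) (hUDG : T_UDG) (hUJT : T_UJT) (hURN : T_URN)
    (hUQS : T_UQS) (hSHF : T_SHF) (hUDC : T_UDC) : T_L41 := by
  intro k0 L _ _ _ _ hcl m B y hB hBm hy0 hy1 hg
  classical
  by_cases hli : LinearIndependent k0 y
  swap
  · exact Or.inl hli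
  right
  have : CharZero L := charZero_of_injective_algebraMap (algebraMap k0 L).injective
  have : CharZero (AlgebraicClosure L) :=
    charZero_of_injective_algebraMap (algebraMap L (AlgebraicClosure L)).injective
  let Ω := AlgebraicClosure L
  let kb := algebraicClosure k0 Ω
  have hkbc : IsAlgClosed kb := (algebraicClosure.isAlgClosure k0 Ω).isAlgClosed
  have hm1 : 1 ≤ m := hB.trans hBm
  have hy0' : algebraMap L Ω (y 0) ≠ 0 := by
    rw [Ne, map_eq_zero]
    exact hy0
  -- the field `E`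
  let w : Fin (m + 1) → Ω := fun i => algebraMap L Ω (y i / y 0)
  let E : IntermediateField kb Ω := IntermediateField.adjoin kb (Set.range w)
  let w' : Fin (m + 1) → E := fun i => ⟨w i, IntermediateField.subset_adjoin _ _ ⟨i, rfl⟩⟩
  have hess : Algebra.EssFiniteType kb E :=
    IntermediateField.essFiniteType_iff.2
      (IntermediateField.fg_adjoin_of_finite (Set.finite_range w))
  have htop : IntermediateField.adjoin kb (Set.range w') = ⊤ := by
    apply IntermediateField.map_injective E.val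
    rw [IntermediateField.adjoin_map, ← Set.range_comp]
    rw [← AlgHom.fieldRange_eq_map, IntermediateField.fieldRange_val]
    rfl
  -- algebraic elements
  have halg : ∀ x : Ω, IsAlgebraic kb x → IsAlgebraic k0 x := by
    intro x hx
    have : Algebra.IsAlgebraic k0 kb := inferInstance
    exact hx.restrictScalars k0
  have hnk : ∀ x : E, ¬ IsAlgebraic kb x ↔ x ∉ Set.range (algebraMap kb E) := by
    intro x
    rw [not_iff_not]
    constructor
    · intro hx
      have hx1 : IsAlgebraic kb (x : Ω) := hx.algHom E.val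
      have hx2 := halg _ hx1
      refine ⟨⟨(x : Ω), mem_algebraicClosure_iff.2 hx2⟩, ?_⟩
      apply Subtype.ext
      rfl
    · rintro ⟨c, rfl⟩
      exact isAlgebraic_algebraMap c
  have hu : w' 1 ∉ Set.range (algebraMap kb E) := by
    rintro ⟨c, hc⟩
    apply hy1
    apply hcl
    have h1 : IsAlgebraic k0 (w 1) := by
      have h2 : (c : Ω) = w 1 := congrArg (fun x : E => (x : Ω)) hc
      rw [← h2]
      exact mem_algebraicClosure_iff.1 c.2
    exact (isAlgebraic_algebraMap_iff (algebraMap L Ω).injective).1 h1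
  have hg' : ∀ c : Fin (m + 1) → ℤ, ∃ (b : ℕ) (g : MvPolynomial (Fin 3) kb), b ≤ B ∧ g ≠ 0 ∧
      g.IsHomogeneous b ∧ aeval ![1, w' 1, ∑ i, (c i : E) * w' i] g = 0 := by
    intro c
    obtain ⟨b, g, g1, g2, g3, g4⟩ := hg c
    refine ⟨b, map (algebraMap k0 kb) g, g1, ?_, g3.map _, ?_⟩
    · intro h
      exact g2 (map_injective _ (algebraMap k0 kb).injective (by rw [h, map_zero]))
    · rw [aeval_map_algebraMap]
      apply Subtype.ext
      have h1 : ((aeval ![1, w' 1, ∑ i, (c i : E) * w' i] g : E) : Ω) =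
          aeval ![1, w 1, ∑ i, (c i : Ω) * w i] g := by
        have h2 := congrArg (fun φ : MvPolynomial (Fin 3) k0 →ₐ[k0] Ω => φ g)
          (comp_aeval ![1, w' 1, ∑ i, (c i : E) * w' i] (E.val.restrictScalars k0))
        refine Eq.trans h2 ?_
        refine congrArg (fun v : Fin 3 → Ω => aeval v g) ?_
        funext i
        fin_cases i
        · rfl
        · rfl
        · show ((∑ i, (c i : E) * w' i : E) : Ω) = ∑ i, (c i : Ω) * w i
          push_cast
          rfl
      rw [h1]
      have h3 : aeval (fun i => algebraMap L Ω (![y 0, y 1, ∑ i, (c i : L) * y i] i)) g =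
          (0 : Ω) := by
        have h4 := congrArg (algebraMap L Ω) g4
        rw [map_zero] at h4
        rw [← h4]
        exact aeval_algebraMap_apply Ω ![y 0, y 1, ∑ i, (c i : L) * y i] g
      have h5 : (fun i => algebraMap L Ω (![y 0, y 1, ∑ i, (c i : L) * y i] i)) =
          fun i => algebraMap L Ω (y 0) * (![1, w 1, ∑ i, (c i : Ω) * w i] : Fin 3 → Ω) i := by
        have h6 : ∀ i, algebraMap L Ω (y 0) * w i = algebraMap L Ω (y i) := by
          intro i
          show algebraMap L Ω (y 0) * algebraMap L Ω (y i / y 0) = _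
          rw [← map_mul, mul_div_cancel₀ _ hy0]
        funext i
        fin_cases i
        · simp
        · exact (h6 1).symm
        · show algebraMap L Ω (∑ i, (c i : L) * y i) =
            algebraMap L Ω (y 0) * ∑ i, (c i : Ω) * w i
          rw [map_sum, Finset.mul_sum]
          refine Finset.sum_congr rfl fun i _ => ?_
          rw [map_mul, map_intCast, ← h6 i]
          ring
      rw [h5, aeval_scale g3] at h3
      exact (mul_eq_zero.1 h3).resolve_left (pow_ne_zero _ hy0')
  have htr : Algebra.trdeg kb E = 1 := by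
    refine trdeg_one w' (w' 1) ((hnk _).2 hu) ⟨1, rfl⟩ htop fun i => ?_
    obtain ⟨b, g, g1, g2, g3, g4⟩ := hg' (Pi.single i 1)
    refine ⟨b, g, g2, g3, ?_⟩
    rw [← g4]
    refine congrArg (fun v : Fin 3 → E => aeval v g) ?_
    have h1 : ∑ j, ((Pi.single i 1 : Fin (m + 1) → ℤ) j : E) * w' j = w' i := by
      simp [Pi.single_apply]
    rw [h1]
  -- independence
  have hliw : LinearIndependent kb w' := by
    rw [Fintype.linearIndependent_iff]
    intro a ha i
    have h1 : LinearIndependent k0 (fun i => y i / y 0) := by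
      have h2 := hli.map' (LinearMap.mulLeft k0 (y 0)⁻¹) (by
        rw [LinearMap.ker_eq_bot]
        exact mul_right_injective₀ (inv_ne_zero hy0))
      have h3 : (⇑(LinearMap.mulLeft k0 (y 0)⁻¹) ∘ y) = fun i => y i / y 0 := by
        funext i
        show (y 0)⁻¹ * y i = _
        rw [div_eq_mul_inv, mul_comm]
      rwa [h3] at h2
    have h4 := hLDJ k0 L Ω hcl (Fin (m + 1)) (fun i => y i / y 0) (fun i => (a i : Ω))
      (fun i => mem_algebraicClosure_iff.1 (a i).2) (by
        have h5 : ((∑ i, a i • w' i : E) : Ω) = 0 := congrArg (fun x : E => (x : Ω)) ha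
        have h6 : ((∑ i, a i • w' i : E) : Ω) = ∑ i, ((a i • w' i : E) : Ω) := map_sum E.val _ _
        rw [← h5, h6]
        refine Finset.sum_congr rfl fun j _ => ?_
        show w j * (a j : Ω) = (a j : Ω) * w j
        exact mul_comm _ _) h1 i
    exact Subtype.ext h4
  have hdeg1 : deg kb w' ≤ B := hUDG kb E htr m B w' (w' 1) hu ⟨1, rfl⟩ htop hg'
  have hdeg2 : m ≤ deg kb w' := (hUJT kb E htr m w' hliw).1
  have hmB : m = B := by omega
  have hdeg3 : deg kb w' = m := by omega
  refine ⟨hmB, ?_⟩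
  obtain ⟨s, f, z, hz, hf, hs, hw⟩ := hURN kb E htr m w' hm1 hliw hdeg3
  -- in `Ω`
  let zΩ : Fin (m + 1) → Fin (m + 1) → Ω := fun i j => (z i j : Ω)
  have hzΩ : LinearIndependent Ω zΩ := li_map (K1 := Ω) hz
  have hfΩ : (algebraMap L Ω (y 0)) * (f : Ω) ≠ 0 := by
    refine mul_ne_zero hy0' ?_
    intro h
    exact hf (Subtype.ext h)
  have hyw : ∀ j, algebraMap L Ω (y j) =
      (algebraMap L Ω (y 0)) * (f : Ω) * ∑ i : Fin (m + 1), zΩ i j * (s : Ω) ^ (i : ℕ) := by
    intro j
    have h1 : w j = (f : Ω) * ∑ i : Fin (m + 1), zΩ i j * (s : Ω) ^ (i : ℕ) := by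
      have h2 := congrArg (fun x : E => (x : Ω)) (hw j)
      refine h2.trans ?_
      push_cast
      rfl
    rw [mul_assoc, ← h1]
    show _ = algebraMap L Ω (y 0) * algebraMap L Ω (y j / y 0)
    rw [← map_mul, mul_div_cancel₀ _ hy0]
  have hsΩ : ¬ IsAlgebraic k0 (s : Ω) := by
    intro h
    apply hs
    exact ⟨⟨(s : Ω), mem_algebraicClosure_iff.2 h⟩, Subtype.ext rfl⟩
  obtain ⟨M, q, hM, hq, hqz⟩ := hUQS k0 L Ω hcl m y zΩ (s : Ω) (algebraMap L Ω (y 0) * (f : Ω))
    (fun i j => mem_algebraicClosure_iff.1 (z i j).2) hsΩ hfΩ hzΩ hyw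
  obtain ⟨z1, hz1, hz10, _, hz1r⟩ := hSHF Ω m m zΩ (s : Ω) hzΩ
  obtain ⟨c, hc⟩ : ∃ c : Ω, c = algebraMap L Ω (y 0) * (f : Ω) := ⟨_, rfl⟩
  rw [← hc] at hyw hfΩ
  have hz2 : LinearIndependent Ω (fun i => c • z1 i) :=
    hz1.units_smul (fun _ => Units.mk0 c hfΩ)
  have hres : ∀ G : MvPolynomial (Fin (m + 1)) Ω, G.IsHomogeneous 2 → resC zΩ G = 0 →
      resC (fun i => c • z1 i) G = 0 := by
    intro G hG h0
    have h1 : resC (fun i => c • z1 i) G = (Polynomial.C c) ^ 2 * resC z1 G := by
      unfold resC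
      have h2 : (fun i => ∑ j : Fin (m + 1), Polynomial.C ((c • z1 j) i) *
          (Polynomial.X : Polynomial Ω) ^ (j : ℕ)) = fun i => Polynomial.C c *
          ∑ j : Fin (m + 1), Polynomial.C (z1 j i) * Polynomial.X ^ (j : ℕ) := by
        funext i
        rw [Finset.mul_sum]
        refine Finset.sum_congr rfl fun j _ => ?_
        rw [Pi.smul_apply, smul_eq_mul, map_mul, mul_assoc]
      have h3 := aeval_scale hG (Polynomial.C c)
        (fun i => ∑ j : Fin (m + 1), Polynomial.C (z1 j i) * (Polynomial.X : Polynomial Ω) ^ (j : ℕ))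
      rw [h2]
      exact h3
    rw [h1, hz1r, h0]
    simp
  have hqL : LinearIndependent L (fun l a => algebraMap k0 L (q l a)) := by
    have : Fintype (Mon (m + 1) 2) := Fintype.ofFinite _
    exact li_map (K1 := L) hq
  obtain ⟨z3, h31, h32, h33⟩ := hUDC L m M (fun l a => algebraMap k0 L (q l a)) y
    (fun i => c • z1 i) hm1 hM hqL hz2 (by
      intro j
      rw [Pi.smul_apply, smul_eq_mul, hz10, hyw]
      congr 1
      refine Finset.sum_congr rfl fun i _ => ?_
      ring) (by
      intro l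
      apply hres _ (frm_homog _)
      rw [← hqz l]
      congr 2)
  exact ⟨M, q, z3, hM, hq, h31, h32, h33⟩

end Pool.Agent.H3.EE
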