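import Pool.Agent.H30.EE.TargetsU

/-!
# Preparations for Lemma 4.1 (row L41 of ee_modules)
-/

set_option autoImplicit false

open MvPolynomial Pool.Agent.H27.LV Pool.Agent.H17.VG Pool.Agent.H30.EE
open SC hiding el

namespace Pool.Agent.H3.EE

/-- base change of independent vectors -/
theorem li_map {K0 K1 : Type} [Field K0] [Field K1] [Algebra K0 K1] {M ι : Type} [Fintype M]
    [Fintype ι] {q : M → ι → K0} (h : LinearIndependent K0 q) :
    LinearIndependent K1 (fun l a => algebraMap K0 K1 (q l a)) := by
  classical
  obtain ⟨g, hg⟩ := LinearMap.exists_leftInverse_of_injective (Fintype.linearCombination K0 q)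
    (LinearMap.ker_eq_bot.2 (linearIndependent_iff_injective_fintypeLinearCombination.1 h))
  have hR : ∀ l l' : M, ∑ a, q l a * g (Pi.single a 1) l' = if l' = l then 1 else 0 := by
    intro l l'
    have h1 : g (q l) = Pi.single l 1 := by
      have h2 := congrArg (fun φ => φ (Pi.single l 1)) hg
      simp only [LinearMap.comp_apply, LinearMap.id_apply] at h2
      rw [← h2]
      congr 1
      rw [Fintype.linearCombination_apply_single, one_smul]
    have h3 : q l = ∑ a, q l a • (Pi.single a 1 : ι → K0) := by
      funext b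
      rw [Finset.sum_apply]
      simp [Pi.single_apply]
    have h4 : g (q l) l' = ∑ a, q l a * g (Pi.single a 1) l' := by
      conv_lhs => rw [h3]
      rw [map_sum, Finset.sum_apply]
      simp
    rw [← h4, h1, Pi.single_apply]
  rw [Fintype.linearIndependent_iff]
  intro c hc l'
  have h5 : ∑ a, (∑ l, c l * algebraMap K0 K1 (q l a)) *
      algebraMap K0 K1 (g (Pi.single a 1) l') = 0 := by
    refine Finset.sum_eq_zero fun a _ => ?_
    have h6 := congrFun hc a
    rw [Finset.sum_apply] at h6
    simp only [Pi.smul_apply, smul_eq_mul, Pi.zero_apply] at h6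
    rw [h6, zero_mul]
  simp only [Finset.sum_mul] at h5
  rw [Finset.sum_comm] at h5
  have h7 : ∀ l, ∑ a, c l * algebraMap K0 K1 (q l a) * algebraMap K0 K1 (g (Pi.single a 1) l') =
      c l * (if l' = l then 1 else 0) := by
    intro l
    simp only [mul_assoc, ← Finset.mul_sum]
    congr 1
    simp only [← map_mul]
    rw [← map_sum, hR]
    split_ifs
    · rw [map_one]
    · rw [map_zero]
  simp only [h7, mul_ite, mul_one, mul_zero, Finset.sum_ite_eq, Finset.mem_univ, if_true] at h5
  exact h5

/-- homogeneous polynomials and scaling -/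
theorem aeval_scale {k A σ : Type} [Field k] [CommRing A] [Algebra k A] {b : ℕ}
    {g : MvPolynomial σ k} (hg : g.IsHomogeneous b) (c : A) (v : σ → A) :
    aeval (fun i => c * v i) g = c ^ b * aeval v g := by
  simp only [aeval_def, eval₂_eq]
  rw [Finset.mul_sum]
  refine Finset.sum_congr rfl fun d hd => ?_
  have h1 : d.degree = b := by
    rw [Finsupp.degree_eq_weight_one]
    exact hg (mem_support_iff.1 hd)
  simp only [mul_pow, Finset.prod_mul_distrib]
  have h2 : ∏ i ∈ d.support, c ^ d i = c ^ b := by
    rw [Finset.prod_pow_eq_pow_sum, ← h1]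
    rfl
  rw [h2]
  ring

/-- a homogeneous polynomial is not killed by the first variable `1` -/
theorem dehom {k : Type} [Field k] {b : ℕ} {g : MvPolynomial (Fin 3) k} (hg : g.IsHomogeneous b)
    (h : aeval ![1, X 0, X 1] g = (0 : MvPolynomial (Fin 2) k)) : g = 0 := by
  set F := FractionRing (MvPolynomial (Fin 3) k)
  have hX : algebraMap (MvPolynomial (Fin 3) k) F (X 0) ≠ 0 := by
    rw [Ne, FaithfulSMul.algebraMap_eq_zero_iff]
    exact X_ne_zero 0
  have h1 : algebraMap (MvPolynomial (Fin 3) k) F g = 0 := by
    have h2 : algebraMap (MvPolynomial (Fin 3) k) F g = aeval (fun i : Fin 3 =>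
        algebraMap (MvPolynomial (Fin 3) k) F (X i)) g := by
      have h3 : (IsScalarTower.toAlgHom k (MvPolynomial (Fin 3) k) F) =
          aeval (fun i : Fin 3 => algebraMap (MvPolynomial (Fin 3) k) F (X i)) := by
        apply algHom_ext
        intro i
        simp
      exact congrArg (fun φ => φ g) h3
    have h4 : (fun i : Fin 3 => algebraMap (MvPolynomial (Fin 3) k) F (X i)) = fun i =>
        algebraMap (MvPolynomial (Fin 3) k) F (X 0) *
          (![1, algebraMap (MvPolynomial (Fin 3) k) F (X 1) /
            algebraMap (MvPolynomial (Fin 3) k) F (X 0),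
            algebraMap (MvPolynomial (Fin 3) k) F (X 2) /
            algebraMap (MvPolynomial (Fin 3) k) F (X 0)] : Fin 3 → F) i := by
      funext i
      fin_cases i
      · simp
      · simp [mul_div_cancel₀, hX]
      · simp [mul_div_cancel₀, hX]
    rw [h2, h4, aeval_scale hg]
    have h5 : aeval (![1, algebraMap (MvPolynomial (Fin 3) k) F (X 1) /
            algebraMap (MvPolynomial (Fin 3) k) F (X 0),
            algebraMap (MvPolynomial (Fin 3) k) F (X 2) /
            algebraMap (MvPolynomial (Fin 3) k) F (X 0)] : Fin 3 → F) g =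
        aeval ![algebraMap (MvPolynomial (Fin 3) k) F (X 1) /
            algebraMap (MvPolynomial (Fin 3) k) F (X 0),
            algebraMap (MvPolynomial (Fin 3) k) F (X 2) /
            algebraMap (MvPolynomial (Fin 3) k) F (X 0)]
          (aeval ![1, X 0, X 1] g : MvPolynomial (Fin 2) k) := by
      rw [← AlgHom.comp_apply, comp_aeval]
      congr 2
      funext i
      fin_cases i <;> simp
    rw [h5, h, map_zero, mul_zero]
  rwa [FaithfulSMul.algebraMap_eq_zero_iff] at h1

/-- a field generated by elements which are pairwise dependent of `u` -/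
theorem trdeg_one {kb E : Type} [Field kb] [Field E] [Algebra kb E] {m : ℕ} (w : Fin (m + 1) → E)
    (u : E) (hu : ¬ IsAlgebraic kb u) (huw : u ∈ Set.range w)
    (htop : IntermediateField.adjoin kb (Set.range w) = ⊤)
    (hrel : ∀ i, ∃ (b : ℕ) (g : MvPolynomial (Fin 3) kb), g ≠ 0 ∧ g.IsHomogeneous b ∧
      aeval ![1, u, w i] g = 0) : Algebra.trdeg kb E = 1 := by
  classical
  have halg : Algebra.IsAlgebraic (Algebra.adjoin kb (Set.range w)) E := by
    constructor
    intro x
    have hx : x ∈ IntermediateField.adjoin kb (Set.range w) := by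
      rw [htop]
      trivial
    rw [IntermediateField.mem_adjoin_iff_div] at hx
    obtain ⟨r, hr, s, hs, rfl⟩ := hx
    have h1 : IsAlgebraic (Algebra.adjoin kb (Set.range w)) r :=
      isAlgebraic_algebraMap (⟨r, hr⟩ : Algebra.adjoin kb (Set.range w))
    have h2 : IsAlgebraic (Algebra.adjoin kb (Set.range w)) s :=
      isAlgebraic_algebraMap (⟨s, hs⟩ : Algebra.adjoin kb (Set.range w))
    rw [div_eq_mul_inv]
    exact h1.mul h2.inv
  obtain ⟨B, hB1, hB2, hB3⟩ := exists_isTranscendenceBasis_between (R := kb) ({u} : Set E)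
    (Set.range w) (Set.singleton_subset_iff.2 huw)
    (algebraicIndependent_unique_type_iff.2 hu)
  have hBu : B = {u} := by
    refine Set.Subset.antisymm ?_ hB1
    intro x hx
    by_contra hxu
    rw [Set.mem_singleton_iff] at hxu
    obtain ⟨i, rfl⟩ := hB2 hx
    obtain ⟨b, g, hg0, hgh, hge⟩ := hrel i
    have hinj : Function.Injective (![⟨u, hB1 rfl⟩, ⟨w i, hx⟩] : Fin 2 → B) := by
      intro a c hac
      fin_cases a <;> fin_cases c
      · rfl
      · exfalso
        have := congrArg Subtype.val hac
        exact hxu this.symm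
      · exfalso
        have := congrArg Subtype.val hac
        exact hxu this
      · rfl
    have h1 : AlgebraicIndependent kb ![u, w i] := by
      have h2 := hB3.1.comp _ hinj
      have h3 : ((↑) : B → E) ∘ (![⟨u, hB1 rfl⟩, ⟨w i, hx⟩] : Fin 2 → B) = ![u, w i] := by
        funext a
        fin_cases a <;> rfl
      rwa [h3] at h2
    apply hg0
    apply dehom hgh
    apply h1.eq_zero_of_aeval_eq_zero
    rw [← hge, ← AlgHom.comp_apply, comp_aeval]
    congr 2
    funext a
    fin_cases a <;> simp
  have h1 := hB3.cardinalMk_eq_trdeg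
  rw [← h1, hBu]
  simp

end Pool.Agent.H3.EE
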