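import Pool.Agent.H30.EE.TargetsU

/-!
# Lemma 4.3 (row L43 of ee_modules)
-/

set_option autoImplicit false

open MvPolynomial Pool.Agent.H27.LV Pool.Agent.H17.VG Pool.Agent.H30.EE

open SC hiding el

namespace Pool.Agent.H3.EE

section El

variable {k K : Type} [Field k] [Field K] [Algebra k K] {n : ℕ}

theorem el_sumZ {m : ℕ} (L : Fin m → Fin (n + 1) → k) (c : Fin m → ℤ) (x : Fin (n + 1) → K) :
    el (fun j => ∑ i, (c i : k) * L i j) x = ∑ i, (c i : K) * el (L i) x := by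
  unfold el
  simp only [map_sum, map_mul, map_intCast, Finset.sum_mul, Finset.mul_sum]
  rw [Finset.sum_comm]
  simp only [mul_assoc]

theorem el_lin {m : ℕ} (l : Fin (n + 1) → k) (a : Fin m → K) (c : Fin m → Fin (n + 1) → K) :
    el l (fun j => ∑ i, a i * c i j) = ∑ i, a i * el l (c i) := by
  unfold el
  simp only [Finset.mul_sum]
  rw [Finset.sum_comm]
  refine Finset.sum_congr rfl fun i _ => Finset.sum_congr rfl fun j _ => ?_
  ring

/-- the height of a relation between two elements -/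
theorem hgt_rel2 (hHG : T_HG) [IsAlgClosed k] [CharZero k] [Algebra.EssFiniteType k K]
    (htr : Algebra.trdeg k K = 1) (y0 y1 : K) (hy : y0 ≠ 0) (ρ : ℤ)
    (h : Rel k ![y0, y1] ρ) : hgt k ![y0, y1] ≤ ρ := by
  obtain ⟨a, ha0, ha1, ha2⟩ := h
  rw [Fin.sum_univ_two] at ha1
  simp only [Matrix.cons_val_zero, Matrix.cons_val_one] at ha1
  have h1 : a 1 ≠ 0 := by
    intro h1
    apply ha0
    rw [h1, zero_mul, add_zero] at ha1
    funext i
    fin_cases i
    · exact (mul_eq_zero.1 ha1).resolve_right hy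
    · exact h1
  have h2 : ![y0, y1] = (y0 / a 1) • ![a 1, -a 0] := by
    funext i
    fin_cases i
    · show y0 = y0 / a 1 * a 1
      rw [div_mul_cancel₀ _ h1]
    · show y1 = y0 / a 1 * (-a 0)
      rw [div_mul_eq_mul_div, eq_div_iff h1]
      linear_combination ha1
  have h3 := (hHG k K htr (Fin 2) ![a 1, -a 0]).2.2.1 (y0 / a 1) (div_ne_zero hy h1)
  rw [h2, h3]
  refine le_trans (le_of_eq ?_) ha2
  unfold hgt
  rw [neg_inj]
  refine finsum_congr fun v => ?_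
  unfold mo
  congr 1
  ext t
  simp only [Set.mem_ofPred_eq]
  constructor
  · rintro ⟨i, hi, hi2⟩
    fin_cases i
    · exact ⟨1, hi, hi2⟩
    · refine ⟨0, ?_, ?_⟩
      · simpa using hi
      · simpa [v.ord_neg] using hi2
  · rintro ⟨i, hi, hi2⟩
    fin_cases i
    · refine ⟨1, ?_, ?_⟩
      · simpa using hi
      · simpa [v.ord_neg] using hi2
    · exact ⟨0, hi, hi2⟩

end El

theorem pf_L43 (hHG : T_HG) (hL42 : T_L42) (hCHN : T_CHN) (hPHI : T_PHI) (hCHT : T_CHT)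
    (hD2T : T_D2T) : T_L43 := by
  intro B hB
  obtain ⟨C1, hC1⟩ := hL42 B hB
  refine ⟨(B + 2) * 3 ^ (B + 1) * (C1 + 1) * (4 * B + 10), ?_⟩
  intro k K _ _ _ _ _ _ htr n β x l0 l1 hl0 hh hbig hg
  obtain ⟨C, hC⟩ : ∃ C : ℕ, C = (B + 2) * 3 ^ (B + 1) * (C1 + 1) * (4 * B + 10) := ⟨_, rfl⟩
  rw [← hC] at hbig ⊢
  obtain ⟨X, hX⟩ : ∃ X : ℤ, X = C1 * β := ⟨_, rfl⟩
  have hX0 : 0 ≤ X := by rw [hX]; positivity
  obtain ⟨ρ, hρ⟩ : ∃ ρ : ℕ → ℤ, ρ = fun j => 3 ^ (B + 1 - j) * X := ⟨_, rfl⟩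
  obtain ⟨Y, hY⟩ : ∃ Y : ℤ, Y = 3 ^ (B + 1) * X := ⟨_, rfl⟩
  have hpow : ∀ j : ℕ, (1 : ℤ) ≤ 3 ^ (B + 1 - j) ∧ (3 : ℤ) ^ (B + 1 - j) ≤ 3 ^ (B + 1) := fun j =>
    ⟨one_le_pow₀ (by norm_num), pow_le_pow_right₀ (by norm_num) (Nat.sub_le _ _)⟩
  have hρX : ∀ j, X ≤ ρ j := by
    intro j
    rw [hρ]
    exact le_mul_of_one_le_left hX0 (hpow j).1
  have hρY : ∀ j, ρ j ≤ Y := by
    intro j
    rw [hρ, hY]
    exact mul_le_mul_of_nonneg_right (hpow j).2 hX0
  have hXY : X ≤ Y := (hρX 0).trans (hρY 0)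
  have hY0 : 0 ≤ Y := hX0.trans hXY
  have hCY : ((B + 2) * (4 * B + 10) : ℤ) * Y ≤ C * β := by
    rw [hC, hY, hX]
    push_cast
    have h1 : (0 : ℤ) ≤ (B + 2) * 3 ^ (B + 1) * (4 * B + 10) * β := by positivity
    linarith
  have hYC : Y ≤ C * β := by
    have h1 : (1 : ℤ) ≤ (B + 2) * (4 * B + 10) := by nlinarith
    nlinarith
  -- the conditions of Lemma 4.2
  have hcond : ∀ (m : ℕ) (L : Fin (m + 1) → Fin (n + 1) → k), L 0 = l0 → L 1 = l1 →
      ∀ c : Fin (m + 1) → ℤ, ∃ (b : ℕ) (g : MvPolynomial (Fin 3) K), b ≤ B ∧ g ≠ 0 ∧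
        g.IsHomogeneous b ∧ hF (n := 2) k b g ≤ β ∧
        eval ![el (L 0) x, el (L 1) x, ∑ i, (c i : K) * el (L i) x] g = 0 := by
    intro m L h0 h1 c
    obtain ⟨b, g, g1, g2, g3, g4, g5⟩ := hg (fun j => ∑ i, (c i : k) * L i j)
    refine ⟨b, g, g1, g2, g3, g4, ?_⟩
    rw [h0, h1, ← el_sumZ]
    exact g5
  have hno : ¬ hgt k ![el l0 x, el l1 x] ≤ C1 * β := by
    rw [hh, ← hX]
    intro h1
    linarith
  have h1 : ¬ Rel k ![el l0 x, el l1 x] (ρ 1) := by
    intro h1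
    have h2 := hgt_rel2 hHG htr _ _ hl0 _ h1
    rw [hh] at h2
    have := hρY 1
    linarith
  have h2 : ∀ L : Fin (B + 2) → Fin (n + 1) → k, L 0 = l0 → L 1 = l1 →
      Rel k (fun i => el (L i) x) (ρ (B + 1)) := by
    intro L e0 e1
    rcases hC1 k K htr (B + 1) β (fun i => el (L i) x) (by omega) le_rfl
      (by show el (L 0) x ≠ 0; rw [e0]; exact hl0) (hcond (B + 1) L e0 e1) with h | h | h
    · exfalso
      apply hno
      have h3 : hgt k ![el (L 0) x, el (L 1) x] ≤ C1 * β := h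
      rwa [e0, e1] at h3
    · obtain ⟨a, a1, a2, a3⟩ := h
      refine ⟨a, a1, a2, a3.trans ?_⟩
      rw [← hX]
      exact hρX _
    · exfalso
      have := h.1
      omega
  obtain ⟨r, L, hr1, hrB, e0, e1, hnr, hrel⟩ := hCHN k K n B x l0 l1 ρ hB h1 h2
  have hρr : ρ r = 3 * ρ (r + 1) := by
    rw [hρ]
    show (3 : ℤ) ^ (B + 1 - r) * X = 3 * (3 ^ (B + 1 - (r + 1)) * X)
    have : B + 1 - r = (B + 1 - (r + 1)) + 1 := by omega
    rw [this, pow_succ]
    ring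
  obtain ⟨c, c1, c2, c3⟩ := hPHI k K htr n r x L (ρ (r + 1)) (hX0.trans (hρX _))
    (by rw [← hρr]; exact hnr) hrel
  obtain ⟨d1, d2⟩ := hCHT k K htr n r c (ρ (r + 1)) c3
  have hcli : LinearIndependent K c := by
    rw [Fintype.linearIndependent_iff]
    intro a ha i'
    have h3 := el_lin (L i') a c
    have h4 : (fun j => ∑ i, a i * c i j) = 0 := by
      rw [← ha]
      funext j
      simp only [Finset.sum_apply, Pi.smul_apply, smul_eq_mul]
    rw [h4] at h3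
    simp only [c2, mul_ite, mul_one, mul_zero, Finset.sum_ite_eq, Finset.mem_univ, if_true] at h3
    rw [← h3]
    simp [el]
  have hx : x = ∑ i, el (L i) x • c i := by
    funext j
    rw [Finset.sum_apply]
    simp only [Pi.smul_apply, smul_eq_mul]
    exact c1 j
  have hr1' : (r : ℤ) + 1 ≤ B + 2 := by
    have : (r : ℤ) ≤ B := by exact_mod_cast hrB
    linarith
  refine ⟨r, hr1, hrB, ⟨Submodule.span K (Set.range c), ?_, ?_, ?_⟩, ?_⟩
  · rw [finrank_span_eq_card hcli, Fintype.card_fin]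
  · rw [hx]
    exact Submodule.sum_mem _ fun i _ =>
      Submodule.smul_mem _ _ (Submodule.subset_span ⟨i, rfl⟩)
  · have h3 := d2 hcli
    have h4 := hρY (r + 1)
    have h5 := hX0.trans (hρX (r + 1))
    have h6 : ((r : ℤ) + 1) * ρ (r + 1) ≤ (B + 2) * Y := mul_le_mul hr1' h4 h5 (by positivity)
    have h7 : ((B : ℤ) + 2) * Y ≤ (B + 2) * (4 * B + 10) * Y := by
      have : (0 : ℤ) ≤ (B + 2) * Y := by positivity
      nlinarith
    linarith
  · rintro rfl
    rcases hC1 k K htr r β (fun i => el (L i) x) le_rfl (by omega)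
      (by show el (L 0) x ≠ 0; rw [e0]; exact hl0) (hcond r L e0 e1) with h | h | h
    · exfalso
      apply hno
      have h3 : hgt k ![el (L 0) x, el (L 1) x] ≤ C1 * β := h
      rwa [e0, e1] at h3
    · exfalso
      obtain ⟨a, a1, a2, a3⟩ := h
      apply hnr
      refine ⟨a, a1, a2, a3.trans ?_⟩
      rw [← hX]
      exact hρX _
    · obtain ⟨_, z, z1, z2, z3⟩ := h
      obtain ⟨f1, f2⟩ := hD2T k K htr n r c (ρ (r + 1)) z z hcli z1 d1
      refine ⟨_, f1, ?_, f2.trans ?_⟩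
      · rw [hx]
        funext j
        rw [Finset.sum_apply, z2]
        simp only [Pi.smul_apply, smul_eq_mul]
      · rw [← hX] at z3
        have h4 := hρY (r + 1)
        have h5 : (2 * (2 * (r : ℤ) + 1)) * ρ (r + 1) ≤ (2 * (2 * (r : ℤ) + 1)) * Y :=
          mul_le_mul_of_nonneg_left h4 (by positivity)
        have h6 : (4 * (r : ℤ) + 3) * Y ≤ (r + 2) * (4 * r + 10) * Y := by
          apply mul_le_mul_of_nonneg_right _ hY0
          have : (0 : ℤ) ≤ r := by positivity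
          nlinarith
        linarith

end Pool.Agent.H3.EE
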