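import Pool.Agent.H30.EE.TargetsG
import Pool.Agent.H17.EE.XB

/-!
# Rules for `dA` (row RG0 of ee_modules)
-/

set_option autoImplicit false

open MvPolynomial Pool.Agent.H27.LV Pool.Agent.H17.VG Pool.Agent.H30.EE
open SC hiding el

namespace Pool.Agent.H3.EE

section Dir

variable {K : Type} [Field K] {n r : ℕ}

theorem dir_add' (w : Fin (n + 1) → K) (p q : MvPolynomial (Fin (n + 1)) K) :
    dir w (p + q) = dir w p + dir w q := by
  unfold dir
  rw [← Finset.sum_add_distrib]
  exact Finset.sum_congr rfl fun i _ => by rw [map_add, mul_add]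

theorem dir_smul' (w : Fin (n + 1) → K) (c : K) (p : MvPolynomial (Fin (n + 1)) K) :
    dir w (c • p) = c • dir w p := by
  unfold dir
  rw [Finset.smul_sum]
  exact Finset.sum_congr rfl fun i _ => by rw [Derivation.map_smul, mul_smul_comm]

theorem dir_mul' (w : Fin (n + 1) → K) (p q : MvPolynomial (Fin (n + 1)) K) :
    dir w (p * q) = dir w p * q + p * dir w q := by
  unfold dir
  rw [Finset.sum_mul, Finset.mul_sum, ← Finset.sum_add_distrib]
  refine Finset.sum_congr rfl fun i _ => ?_
  rw [pderiv_mul]
  ring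

theorem dir_zero' (p : MvPolynomial (Fin (n + 1)) K) : dir (0 : Fin (n + 1) → K) p = 0 := by
  unfold dir
  exact Finset.sum_eq_zero fun i _ => by rw [Pi.zero_apply, map_zero, zero_mul]

theorem dir_sub_left (w w' : Fin (n + 1) → K) (p : MvPolynomial (Fin (n + 1)) K) :
    dir (fun i => w i - w' i) p = dir w p - dir w' p := by
  unfold dir
  rw [← Finset.sum_sub_distrib]
  exact Finset.sum_congr rfl fun i _ => by rw [map_sub, sub_mul]

theorem resC_add' (z : Fin (r + 1) → Fin (n + 1) → K) (p q : MvPolynomial (Fin (n + 1)) K) :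
    resC z (p + q) = resC z p + resC z q := by
  unfold resC
  rw [map_add]

theorem resC_sub' (z : Fin (r + 1) → Fin (n + 1) → K) (p q : MvPolynomial (Fin (n + 1)) K) :
    resC z (p - q) = resC z p - resC z q := by
  unfold resC
  rw [map_sub]

theorem resC_mul' (z : Fin (r + 1) → Fin (n + 1) → K) (p q : MvPolynomial (Fin (n + 1)) K) :
    resC z (p * q) = resC z p * resC z q := by
  unfold resC
  rw [map_mul]

theorem resC_smul' (z : Fin (r + 1) → Fin (n + 1) → K) (c : K)
    (p : MvPolynomial (Fin (n + 1)) K) : resC z (c • p) = c • resC z p := by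
  unfold resC
  rw [map_smul]

theorem resC_zero' (z : Fin (r + 1) → Fin (n + 1) → K) : resC z 0 = 0 := by
  unfold resC
  rw [map_zero]

/-- the matrix part of an operator, restricted to the curve -/
theorem resC_mat (z : Fin (r + 1) → Fin (n + 1) → K) (A : Matrix (Fin (n + 1)) (Fin (n + 1)) K)
    (G : MvPolynomial (Fin (n + 1)) K) :
    resC z (∑ i, (∑ j, C (A i j) * X j) * pderiv i G) =
      dA z (fun j => Matrix.mulVec A (z j)) G := by
  have h1 : ∀ i, resC z (∑ l, C (A i l) * X l) =
      ∑ j : Fin (r + 1), Polynomial.C (Matrix.mulVec A (z j) i) * Polynomial.X ^ (j : ℕ) := by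
    intro i
    unfold resC
    simp only [map_sum, map_mul, aeval_C, aeval_X, Matrix.mulVec, dotProduct, Finset.mul_sum,
      Finset.sum_mul]
    rw [Finset.sum_comm]
    refine Finset.sum_congr rfl fun j _ => Finset.sum_congr rfl fun l _ => ?_
    show Polynomial.C (A i l) * (Polynomial.C (z j l) * Polynomial.X ^ (j : ℕ)) = _
    ring
  have h2 : resC z (∑ i, (∑ j, C (A i j) * X j) * pderiv i G) =
      ∑ i, resC z (∑ j, C (A i j) * X j) * resC z (pderiv i G) := by
    unfold resC
    rw [map_sum]
    exact Finset.sum_congr rfl fun i _ => by rw [map_mul]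
  have h3 : ∀ j : Fin (r + 1), resC z (dir (Matrix.mulVec A (z j)) G) =
      ∑ i, Polynomial.C (Matrix.mulVec A (z j) i) * resC z (pderiv i G) := by
    intro j
    unfold resC dir
    rw [map_sum]
    refine Finset.sum_congr rfl fun i _ => ?_
    rw [map_mul, aeval_C]
    rfl
  rw [h2]
  unfold dA
  simp only [h1, h3, Finset.sum_mul, Finset.mul_sum]
  rw [Finset.sum_comm]
  refine Finset.sum_congr rfl fun j _ => Finset.sum_congr rfl fun i _ => ?_
  ring

end Dir

theorem pf_RG0 : T_RG0 := by
  intro R K _ _ _ _ n r z a G G'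
  refine ⟨?_, ?_, ?_, ?_, ?_⟩
  · unfold dA
    rw [← Finset.sum_add_distrib]
    exact Finset.sum_congr rfl fun j _ => by rw [dir_add', resC_add', mul_add]
  · intro c
    unfold dA
    rw [Finset.smul_sum]
    exact Finset.sum_congr rfl fun j _ => by rw [dir_smul', resC_smul', mul_smul_comm]
  · unfold dA
    rw [Finset.sum_mul, Finset.mul_sum, ← Finset.sum_add_distrib]
    refine Finset.sum_congr rfl fun j _ => ?_
    rw [dir_mul', resC_add', resC_mul', resC_mul']
    ring
  · intro τ
    have h1 : pD τ.1 (resC z G) = resC z (cD τ.1 G) +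
        ∑ j : Fin (r + 1), Polynomial.X ^ (j : ℕ) * resC z (dir (fun i => τ.1 (z j i)) G) :=
      Pool.Agent.H17.EE.pD_resC τ.1 z G
    have h2 : dA z (fun j => opV τ (z j)) G = ∑ j : Fin (r + 1), Polynomial.X ^ (j : ℕ) *
        resC z (dir (fun i => τ.1 (z j i)) G) - dA z (fun j => Matrix.mulVec τ.2 (z j)) G := by
      unfold dA
      rw [← Finset.sum_sub_distrib]
      refine Finset.sum_congr rfl fun j _ => ?_
      rw [← mul_sub, ← resC_sub', ← dir_sub_left]
      rfl
    have h3 : resC z (opF τ G) = resC z (cD τ.1 G) +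
        dA z (fun j => Matrix.mulVec τ.2 (z j)) G := by
      unfold opF
      rw [resC_add', resC_mat]
    rw [h1, h2, h3]
    ring
  · intro A hA
    have h1 : cD (0 : Derivation R K K) G = 0 := by
      unfold cD
      exact Finset.sum_eq_zero fun m _ => by rw [Derivation.coe_zero, Pi.zero_apply, map_zero]
    unfold opF
    rw [resC_add', resC_mat, h1, resC_zero', zero_add]
    have h2 : (fun j => Matrix.mulVec A (z j)) = a := funext hA
    rw [h2]

end Pool.Agent.H3.EE
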