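import Pool.Agent.H3.EE.RG0
import Pool.Agent.H97.VG.BR
import Pool.Agent.H97.VG.OP

/-!
# The bracket (row RG2 of ee_modules)
-/

set_option autoImplicit false

open MvPolynomial Pool.Agent.H27.LV Pool.Agent.H17.VG Pool.Agent.H30.EE
open SC hiding el

namespace Pool.Agent.H3.EE

theorem pf_RG2 (hRG0 : T_RG0) : T_RG2 := by
  intro R K _ _ _ _ n e r F z a hF hz ha0 ha haF _ τ hτ _
  classical
  -- a matrix
  obtain ⟨W, hW⟩ := Pool.Agent.H17.EE.exists_leftInv hz
  obtain ⟨A, hA⟩ : ∃ A : Matrix (Fin (n + 1)) (Fin (n + 1)) K,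
      ∀ m, Matrix.mulVec A (z m) = a m := by
    refine ⟨Matrix.of fun i l => ∑ j, a j i * W l j, fun m => ?_⟩
    funext i
    simp only [Matrix.mulVec, dotProduct, Matrix.of_apply, Finset.sum_mul]
    rw [Finset.sum_comm]
    have h1 : ∀ j, ∑ l, a j i * W l j * z m l = a j i * (if m = j then 1 else 0) := by
      intro j
      rw [← hW m j, Finset.mul_sum]
      exact Finset.sum_congr rfl fun l _ => by ring
    simp only [h1, mul_ite, mul_one, mul_zero, Finset.sum_ite_eq, Finset.mem_univ, if_true]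
  obtain ⟨τ0, hτ0⟩ : ∃ τ0 : Op R K n, τ0 = (0, A) := ⟨_, rfl⟩
  have hB := fun G w => Pool.Agent.H97.VG.br R K n τ0 τ G w
  have h5 : ∀ G, resC z (opF τ0 G) = dA z a G := by
    intro G
    rw [hτ0]
    exact (hRG0 R K n r z a G G).2.2.2.2 A hA
  have hV0 : ∀ w, opV τ0 w = -Matrix.mulVec A w := by
    intro w
    rw [hτ0]
    funext i
    show (0 : Derivation R K K) (w i) - ∑ j, A i j * w j = -(Matrix.mulVec A w) i
    rw [Derivation.coe_zero, Pi.zero_apply, zero_sub]
    rfl
  have hG0 : resC z (opF τ0 F) = 0 := by rw [h5, haF]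
  have h6 : resC z (opF τ (opF τ0 F)) = 0 := by
    have h7 := (hRG0 R K n r z a (opF τ0 F) F).2.2.2.1 τ
    rw [hG0, Pool.Agent.H97.VG.pD_zero] at h7
    have h8 : dA z (fun j => opV τ (z j)) (opF τ0 F) = 0 := by
      unfold dA
      refine Finset.sum_eq_zero fun j _ => ?_
      show Polynomial.X ^ (j : ℕ) * resC z (dir (opV τ (z j)) (opF τ0 F)) = 0
      rw [hτ j, dir_zero', resC_zero', mul_zero]
    rw [h8, add_zero] at h7
    exact h7.symm
  have hres : resC z (opF (brk τ0 τ) F) = dA z a (opF τ F) := by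
    rw [(hB F (z 0)).1, resC_sub', h5, h6, sub_zero]
  have hhom : (opF (brk τ0 τ) F).IsHomogeneous (e + 1) :=
    (Pool.Agent.H97.VG.op R K n (e + 1) (brk τ0 τ) τ F F 0 0 (z 0)).2.2.2.2 hF
  -- the value at `z 0`
  have hev : eval (z 0) (opF (brk τ0 τ) F) = 0 := by
    have h7 : (resC z (opF (brk τ0 τ) F)).eval 0 = eval (z 0) (opF (brk τ0 τ) F) := by
      have h8 : (resC z (opF (brk τ0 τ) F)).eval 0 =
          eval (fun i => ∑ j : Fin (r + 1), (0 : K) ^ (j : ℕ) * z j i) (opF (brk τ0 τ) F) :=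
        Pool.Agent.H17.EE.eval_resC z (opF (brk τ0 τ) F) 0
      rw [h8]
      congr 2
      funext i
      rw [Finset.sum_eq_single 0]
      · simp
      · intro j _ hj
        rw [zero_pow (fun h => hj (Fin.ext h)), zero_mul]
      · intro h
        exact absurd (Finset.mem_univ _) h
    rw [← h7, hres]
    unfold dA
    rw [Polynomial.eval_finsetSum]
    refine Finset.sum_eq_zero fun j _ => ?_
    by_cases hj : j = 0
    · rw [hj, ha0, dir_zero', resC_zero', mul_zero, Polynomial.eval_zero]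
    · rw [Polynomial.eval_mul, Polynomial.eval_pow, Polynomial.eval_X,
        zero_pow (fun h => hj (Fin.ext h)), zero_mul]
  -- the operators preserve the span
  have hLspan : ∀ w ∈ Submodule.span K (Set.range z),
      ∃ c : Fin (r + 1) → K, w = ∑ j, c j • z j := by
    intro w hw
    obtain ⟨c, hc⟩ := (Submodule.mem_span_range_iff_exists_fun K).1 hw
    exact ⟨c, hc.symm⟩
  have hL0 : ∀ w ∈ Submodule.span K (Set.range z), opV τ0 w ∈ Submodule.span K (Set.range z) := by
    intro w hw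
    obtain ⟨c, rfl⟩ := hLspan w hw
    rw [hV0, Matrix.mulVec_sum]
    refine Submodule.neg_mem _ (Submodule.sum_mem _ fun j _ => ?_)
    rw [Matrix.mulVec_smul, hA]
    exact Submodule.smul_mem _ _ (ha j)
  have hLτ : ∀ w ∈ Submodule.span K (Set.range z), opV τ w ∈ Submodule.span K (Set.range z) := by
    intro w hw
    obtain ⟨c, rfl⟩ := hLspan w hw
    have h7 : opV τ (∑ j, c j • z j) = ∑ j, τ.1 (c j) • z j := by
      have h8 : ∀ j i, τ.1 (z j i) = ∑ l, τ.2 i l * z j l := by
        intro j i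
        have h9 := congrFun (hτ j) i
        exact sub_eq_zero.1 h9
      funext i
      show τ.1 ((∑ j, c j • z j) i) - ∑ l, τ.2 i l * (∑ j, c j • z j) l =
        (∑ j, τ.1 (c j) • z j) i
      simp only [Finset.sum_apply, Pi.smul_apply, smul_eq_mul, map_sum, Derivation.leibniz,
        Finset.sum_add_distrib, h8, Finset.mul_sum]
      have h9 : ∑ x, ∑ x_1, c x * (τ.2 i x_1 * z x x_1) =
          ∑ l, ∑ j, τ.2 i l * (c j * z j l) := by
        rw [Finset.sum_comm]
        exact Finset.sum_congr rfl fun l _ => Finset.sum_congr rfl fun j _ => by ring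
      rw [h9, add_sub_cancel_left]
      exact Finset.sum_congr rfl fun j _ => mul_comm _ _
    rw [h7]
    exact Submodule.sum_mem _ fun j _ =>
      Submodule.smul_mem _ _ (Submodule.subset_span ⟨j, rfl⟩)
  refine ⟨opF (brk τ0 τ) F, Submodule.subset_span ⟨⟨?_, ?_⟩, brk τ0 τ, rfl, ⟨0, ?_⟩, ?_⟩, hres⟩
  · exact (mem_homogeneousSubmodule _ _).2 hhom
  · show aeval (z 0) (opF (brk τ0 τ) F) = 0
    rw [aeval_eq_eval]
    exact hev
  · rw [(hB F (z 0)).2, hV0 (z 0), hA, ha0, hτ 0, neg_zero]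
    funext i
    simp [opV]
  · intro w hw
    rw [(hB F w).2]
    exact Submodule.sub_mem _ (hL0 _ (hLτ _ hw)) (hLτ _ (hL0 _ hw))

end Pool.Agent.H3.EE
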